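import Pool.Agent.W300.FT.Stm

/-!
FT-FD (project FT, owner helper300): finite dependence.
-/

set_option autoImplicit false

namespace Pool.Agent.W138.FT

open MeasureTheory ProbabilityTheory Pool.Agent.W300.FT

theorem coin_prob : IsProbabilityMeasure coin := by
  constructor
  unfold coin
  simp [ENNReal.inv_two_add_inv_two]

theorem fd (h1 : S_FD1) (h2 : S_FD2) (hm : S_MEAS) : S_FD := by
  intro V G A B hV hG hAB
  haveI := coin_prob
  haveI : IsProbabilityMeasure (PC (V × K)) := by unfold PC; infer_instance
  obtain ⟨m1, m2⟩ := hm V G (A ∪ B) hV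
  haveI : IsProbabilityMeasure (muX G) := by
    unfold muX; exact Measure.isProbabilityMeasure_map m1.aemeasurable
  have hfd1 := h1 V G (A ∪ B) hV
  have hfd2 := h2 V G A B hV hG hAB
  have mr : ∀ S : Set V, Measurable (fun (x : V → K → Bool) (a : S) => x a) := fun S =>
    measurable_pi_iff.2 fun a => measurable_pi_apply a.1
  have mC : Measurable (fun ω (v : (A ∪ B : Set V)) => Psi G ω v) := (mr _).comp m1
  have mC' : Measurable (fun ω (v : (A ∪ B : Set V)) => PsiC G (A ∪ B) ω v) := (mr _).comp m2
  have mA' : Measurable (fun ω (v : A) => PsiC G (A ∪ B) ω v) := (mr _).comp m2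
  have mB' : Measurable (fun ω (v : B) => PsiC G (A ∪ B) ω v) := (mr _).comp m2
  set rA : ((A ∪ B : Set V) → K → Bool) → (A → K → Bool) := fun x a => x ⟨a.1, Or.inl a.2⟩ with hrA
  set rB : ((A ∪ B : Set V) → K → Bool) → (B → K → Bool) := fun x a => x ⟨a.1, Or.inr a.2⟩ with hrB
  have mrA : Measurable rA := measurable_pi_iff.2 fun a => measurable_pi_apply _
  have mrB : Measurable rB := measurable_pi_iff.2 fun a => measurable_pi_apply _
  have e1 : (muX G).map (fun (x : V → K → Bool) (a : A) => x a) =
      (PC (V × K)).map (fun ω (v : A) => PsiC G (A ∪ B) ω v) := by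
    unfold muX
    rw [Measure.map_map (mr A) m1]
    have := congrArg (Measure.map rA) hfd1
    rw [Measure.map_map mrA mC, Measure.map_map mrA mC'] at this
    exact this
  have e2 : (muX G).map (fun (x : V → K → Bool) (a : B) => x a) =
      (PC (V × K)).map (fun ω (v : B) => PsiC G (A ∪ B) ω v) := by
    unfold muX
    rw [Measure.map_map (mr B) m1]
    have := congrArg (Measure.map rB) hfd1
    rw [Measure.map_map mrB mC, Measure.map_map mrB mC'] at this
    exact this
  have e3 : (muX G).map (fun (x : V → K → Bool) => ((fun a : A => x a), (fun b : B => x b))) =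
      (PC (V × K)).map (fun ω => ((fun v : A => PsiC G (A ∪ B) ω v),
        (fun v : B => PsiC G (A ∪ B) ω v))) := by
    unfold muX
    rw [Measure.map_map ((mr A).prodMk (mr B)) m1]
    have := congrArg (Measure.map (fun x => (rA x, rB x))) hfd1
    rw [Measure.map_map (mrA.prodMk mrB) mC, Measure.map_map (mrA.prodMk mrB) mC'] at this
    exact this
  have key : IndepFun (fun (x : V → K → Bool) (a : A) => x a) (fun (x : V → K → Bool) (b : B) => x b)
      (muX G) := by
    rw [indepFun_iff_map_prod_eq_prod_map_map (mr A).aemeasurable (mr B).aemeasurable]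
    rw [e1, e2, e3]
    exact (indepFun_iff_map_prod_eq_prod_map_map mA'.aemeasurable mB'.aemeasurable).1 hfd2
  exact key

end Pool.Agent.W138.FT
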